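import Mathlib
import Pool.Agent.Helper29_CF.Stmt

/-!
Elementary facts on closed sets and components, used by the module PATH.
-/

namespace Pool.Agent.Helper29_CF.H63

open Finset Pool.Agent.Helper29_CF

section Basic

variable {V B : Type} [DecidableEq V] [DecidableEq B]

theorem closed_inter {s : B → Finset V} {F : Finset B} {W W' : Finset V}
    (h : Closed s F W) (h' : Closed s F W') : Closed s F (W ∩ W') := by
  intro b hb
  rcases h b hb with h1 | h1
  · rcases h' b hb with h2 | h2
    · exact Or.inl (subset_inter h1 h2)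
    · exact Or.inr (disjoint_of_subset_right inter_subset_right h2)
  · exact Or.inr (disjoint_of_subset_right inter_subset_left h1)

theorem closed_sdiff {s : B → Finset V} {F : Finset B} {W W' : Finset V}
    (h : Closed s F W) (h' : Closed s F W') : Closed s F (W \ W') := by
  intro b hb
  rcases h b hb with h1 | h1
  · rcases h' b hb with h2 | h2
    · right
      rw [disjoint_left]
      intro x hx hx'
      rw [mem_sdiff] at hx'
      exact hx'.2 (h2 hx)
    · left
      intro x hx
      rw [mem_sdiff]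
      exact ⟨h1 hx, fun hx' => (disjoint_left.mp h2) hx hx'⟩
  · exact Or.inr (disjoint_of_subset_right sdiff_subset h1)

theorem comp_sub_or_disj {s : B → Finset V} {F : Finset B} {W W' : Finset V}
    (h : IsComp s F W) (h' : Closed s F W') : W ⊆ W' ∨ Disjoint W W' := by
  rcases (W ∩ W').eq_empty_or_nonempty with h0 | h0
  · right
    rw [disjoint_iff_inter_eq_empty]
    exact h0
  · left
    have := h.2.2 (W ∩ W') inter_subset_left h0 (closed_inter h.2.1 h')
    intro x hx
    rw [← this] at hx
    exact (mem_inter.mp hx).2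

theorem comp_eq {s : B → Finset V} {F : Finset B} {W W' : Finset V}
    (h : IsComp s F W) (h' : IsComp s F W') {x : V} (hx : x ∈ W) (hx' : x ∈ W') : W = W' := by
  have h1 : W ⊆ W' := by
    rcases comp_sub_or_disj h h'.2.1 with h2 | h2
    · exact h2
    · exact absurd hx' ((disjoint_left.mp h2) hx)
  exact h'.2.2 W h1 h.1 h.2.1

theorem comp_disj {s : B → Finset V} {F : Finset B} {W W' : Finset V}
    (h : IsComp s F W) (h' : IsComp s F W') (hne : W ≠ W') : Disjoint W W' := by
  rw [disjoint_left]
  intro x hx hx'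
  exact hne (comp_eq h h' hx hx')

theorem block_sub {s : B → Finset V} {F : Finset B} {W : Finset V} (h : Closed s F W)
    {b : B} (hb : b ∈ F) {x : V} (hx : x ∈ s b) (hx' : x ∈ W) : s b ⊆ W := by
  rcases h b hb with h1 | h1
  · exact h1
  · exact absurd hx' ((disjoint_left.mp h1) hx)

theorem exists_comp [Fintype V] (s : B → Finset V) (F : Finset B) (x : V) :
    ∃ W, x ∈ W ∧ IsComp s F W := by
  classical
  let A : Finset (Finset V) := univ.filter (fun W => x ∈ W ∧ Closed s F W)
  have hA : A.Nonempty := by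
    refine ⟨univ, ?_⟩
    simp only [A, mem_filter, mem_univ, true_and]
    intro b _
    exact Or.inl (subset_univ _)
  obtain ⟨W, hW, hmin⟩ := A.exists_min_image card hA
  simp only [A, mem_filter, mem_univ, true_and] at hW hmin
  refine ⟨W, hW.1, ⟨x, hW.1⟩, hW.2, ?_⟩
  intro W' hsub hne hcl
  by_cases hx : x ∈ W'
  · exact eq_of_subset_of_card_le hsub (hmin W' ⟨hx, hcl⟩)
  · exfalso
    have h1 := hmin (W \ W') ⟨mem_sdiff.mpr ⟨hW.1, hx⟩, closed_sdiff hW.2 hcl⟩
    have h2 : (W \ W').card < W.card := by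
      apply card_lt_card
      rw [ssubset_iff_of_subset sdiff_subset]
      obtain ⟨y, hy⟩ := hne
      exact ⟨y, hsub hy, fun h3 => (mem_sdiff.mp h3).2 hy⟩
    omega

/-- the two families have the same blocks meeting `W` -/
def Agr (s : B → Finset V) (F F' : Finset B) (W : Finset V) : Prop :=
  ∀ b, ¬ Disjoint (s b) W → (b ∈ F ↔ b ∈ F')

theorem Agr.symm {s : B → Finset V} {F F' : Finset B} {W : Finset V} (h : Agr s F F' W) :
    Agr s F' F W := fun b hb => (h b hb).symm

theorem Agr.mono {s : B → Finset V} {F F' : Finset B} {W W' : Finset V} (h : Agr s F F' W)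
    (hs : W' ⊆ W) : Agr s F F' W' :=
  fun b hb => h b (fun h1 => hb (disjoint_of_subset_right hs h1))

theorem Agr.closed {s : B → Finset V} {F F' : Finset B} {W : Finset V} (h : Agr s F F' W)
    (hc : Closed s F W) : Closed s F' W := by
  intro b hb
  by_cases hd : Disjoint (s b) W
  · exact Or.inr hd
  · exact hc b ((h b hd).mpr hb)

theorem Agr.comp {s : B → Finset V} {F F' : Finset B} {W : Finset V} (h : Agr s F F' W)
    (hc : IsComp s F W) : IsComp s F' W := by
  refine ⟨hc.1, h.closed hc.2.1, ?_⟩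
  intro W' hsub hne hcl
  exact hc.2.2 W' hsub hne ((h.mono hsub).symm.closed hcl)

theorem Agr.deg {s : B → Finset V} {F F' : Finset B} {W : Finset V} (h : Agr s F F' W)
    {x : V} (hx : x ∈ W) : deg s F x = deg s F' x := by
  unfold Helper29_CF.deg
  congr 1
  ext b
  simp only [mem_filter]
  constructor
  · rintro ⟨h1, h2⟩
    refine ⟨(h b ?_).mp h1, h2⟩
    intro hd
    exact (disjoint_left.mp hd) h2 hx
  · rintro ⟨h1, h2⟩
    refine ⟨(h b ?_).mpr h1, h2⟩
    intro hd
    exact (disjoint_left.mp hd) h2 hx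

theorem Agr.nodes {s : B → Finset V} {F F' : Finset B} {W : Finset V} (h : Agr s F F' W)
    {X : Finset V} (hX : X ⊆ W) : nodes s F X = nodes s F' X := by
  unfold Helper29_CF.nodes
  apply filter_congr
  intro x hx
  rw [h.deg (hX hx)]

theorem Agr.eo {s : B → Finset V} {F F' : Finset B} {W : Finset V} (h : Agr s F F' W)
    (hne : ∀ b ∈ F', (s b).Nonempty) (hc : EO s F W) : EO s F' W := by
  obtain ⟨h1, h2, h3, h4⟩ := hc
  refine ⟨h.comp h1, ?_, ?_, ?_⟩
  · intro x hx
    rw [← h.deg hx]
    exact h2 x hx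
  · intro b hb hbW
    rw [← h.nodes hbW]
    refine h3 b ((h b ?_).mpr hb) hbW
    obtain ⟨x, hx⟩ := hne b hb
    intro hd
    exact (disjoint_left.mp hd) hx (hbW hx)
  · rw [← h.nodes (Subset.refl W)]
    exact h4

theorem EO.comp {s : B → Finset V} {F : Finset B} {W : Finset V} (h : EO s F W) :
    IsComp s F W := h.1

theorem deg_pos {s : B → Finset V} {F : Finset B} {x : V} {b : B} (hb : b ∈ F) (hx : x ∈ s b) :
    1 ≤ deg s F x := by
  unfold deg
  exact card_pos.mpr ⟨b, mem_filter.mpr ⟨hb, hx⟩⟩

theorem deg_mono {s : B → Finset V} {F F' : Finset B} (h : F ⊆ F') (x : V) :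
    deg s F x ≤ deg s F' x := by
  unfold deg
  exact card_le_card (filter_subset_filter _ h)

theorem uniq_of_deg_one {s : B → Finset V} {F : Finset B} {x : V} (h : deg s F x = 1)
    {b b' : B} (hb : b ∈ F) (hx : x ∈ s b) (hb' : b' ∈ F) (hx' : x ∈ s b') : b = b' := by
  unfold deg at h
  rw [card_eq_one] at h
  obtain ⟨e, he⟩ := h
  have h1 : b ∈ F.filter (fun b => x ∈ s b) := mem_filter.mpr ⟨hb, hx⟩
  have h2 : b' ∈ F.filter (fun b => x ∈ s b) := mem_filter.mpr ⟨hb', hx'⟩
  rw [he, mem_singleton] at h1 h2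
  rw [h1, h2]

/-- degree after a swap -/
theorem deg_swap {s : B → Finset V} {F : Finset B} {f g : B} (hf : f ∈ F) (hg : g ∉ F) (x : V) :
    deg s (insert g (F.erase f)) x + (if x ∈ s f then 1 else 0) =
      deg s F x + (if x ∈ s g then 1 else 0) := by
  unfold deg
  have hg' : g ∉ F.erase f := fun h => hg (mem_of_mem_erase h)
  rw [filter_insert, filter_erase]
  by_cases hxf : x ∈ s f
  · have hfm : f ∈ F.filter (fun b => x ∈ s b) := mem_filter.mpr ⟨hf, hxf⟩
    have hc := card_erase_add_one hfm
    by_cases hxg : x ∈ s g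
    · rw [if_pos hxg, if_pos hxf, if_pos hxg, card_insert_of_notMem]
      · omega
      · intro h
        exact hg (mem_filter.mp (mem_of_mem_erase h)).1
    · rw [if_neg hxg, if_pos hxf, if_neg hxg]
      omega
  · have hfm : f ∉ F.filter (fun b => x ∈ s b) := fun h => hxf (mem_filter.mp h).2
    rw [erase_eq_of_notMem hfm]
    by_cases hxg : x ∈ s g
    · rw [if_pos hxg, if_neg hxf, if_pos hxg, card_insert_of_notMem]
      intro h
      exact hg (mem_filter.mp h).1
    · rw [if_neg hxg, if_neg hxf, if_neg hxg]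

end Basic

end Pool.Agent.Helper29_CF.H63
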