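import Mathlib
import Pool.Agent.Helper29_CF.Stmt
import Pool.Agent.Helper63_CF.Comp

/-!
Module PATH.
-/

namespace Pool.Agent.Helper29_CF.H63

open Finset Pool.Agent.Helper29_CF

section Path

variable {V B : Type} [Fintype V] [DecidableEq V] [Fintype B] [DecidableEq B]

/-- relation of a state to the start -/
structure Base (s : B → Finset V) (cap : ℕ) (F0 : Finset B) (Q0 : Finset V) (F : Finset B)
    (Q : Finset V) : Prop where
  eo : ∀ W, (EO s F W ∧ W ≠ Q) ↔ (EO s F0 W ∧ W ≠ Q0)
  blk : ∀ W, EO s F0 W → W ≠ Q0 → ∀ b, s b ⊆ W → (b ∈ F ↔ b ∈ F0)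
  d3 : cap = 3 → ∀ x, deg s F x = 3 ↔ deg s F0 x = 3

/-- history of a component -/
structure Hist (s : B → Finset V) (K : Finset B) (cap : ℕ) (F0 : Finset B) (Q0 : Finset V)
    (F : Finset B) (Y X : Finset V) (F1 : Finset B) (Q1 : Finset V) (f1 : B) (p1 : V) :
    Prop where
  good : Good s K cap F1
  eo : EO s F1 Q1
  mem : f1 ∈ F1
  sub : s f1 ⊆ Q1
  mp : p1 ∈ s f1
  dp : deg s F1 p1 = 1
  eqX : X = Q1.erase p1
  blk : ∀ b, s b ⊆ X → (b ∈ F ↔ b ∈ F1)
  base : Base s cap F0 Q0 F1 Q1
  d3 : cap = 3 → ∀ x, deg s F x = 3 ↔ deg s F1 x = 3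
  no : ∀ y ∈ Y, ∀ W, EO s F1 W → y ∉ W

/-- the state of the process -/
structure St (s : B → Finset V) (K : Finset B) (cap : ℕ) (F0 : Finset B) (Q0 : Finset V)
    (F : Finset B) (Q Z U : Finset V) : Prop where
  good : Good s K cap F
  eo : EO s F Q
  z : Z.card ≤ 1
  base : Base s cap F0 Q0 F Q
  cl : Closed s F U
  noeo : ∀ W ⊆ U, ¬ EO s F W
  hist : ∀ X, IsComp s F X → ¬ EO s F X → ¬ X ⊆ U →
    ∃ F1 Q1 f1 p1, Hist s K cap F0 Q0 F ((Q \ Z) ∪ U) X F1 Q1 f1 p1

theorem good_ne {s : B → Finset V} {K : Finset B} {cap : ℕ} {F : Finset B} (hS : Sys s K cap)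
    (hG : Good s K cap F) : ∀ b ∈ F, (s b).Nonempty := fun b hb => hS.ne b (hG.adm.1 hb)

theorem U_disj {s : B → Finset V} {F : Finset B} {Q U : Finset V} (hE : EO s F Q)
    (hU : Closed s F U) (hn : ∀ W ⊆ U, ¬ EO s F W) : Disjoint Q U := by
  rcases comp_sub_or_disj hE.1 hU with h | h
  · exact absurd hE (hn Q h)
  · exact h

/-- agreement outside `Q` -/
theorem agr_off {s : B → Finset V} {F F' : Finset B} {Q W : Finset V}
    (h : SameOff s F F' Q) (hd : Disjoint Q W) : Agr s F F' W := by
  intro b hb
  apply h b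
  intro hsub
  exact hb (disjoint_of_subset_left hsub hd)

theorem deg3_eo {s : B → Finset V} {F : Finset B} {Q : Finset V} (hE : EO s F Q) {x : V}
    (hx : x ∈ Q) : deg s F x ≠ 3 := by
  rcases hE.2.1 x hx with h | h | h <;> omega

theorem base_start (s : B → Finset V) (cap : ℕ) (F : Finset B) (Q : Finset V) :
    Base s cap F Q F Q :=
  ⟨fun _ => Iff.rfl, fun _ _ _ _ _ => Iff.rfl, fun _ _ => Iff.rfl⟩

/-- effect of an option on the state -/
theorem st_off {s : B → Finset V} {K : Finset B} {cap : ℕ} (hS : Sys s K cap)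
    {F0 : Finset B} {Q0 : Finset V} {F : Finset B} {Q Z U : Finset V}
    (h : St s K cap F0 Q0 F Q Z U) {F' : Finset B} (hoff : SameOff s F F' Q)
    (hG : Good s K cap F') (hE : EO s F' Q) : St s K cap F0 Q0 F' Q Z U := by
  have hne := good_ne hS h.good
  have hne' := good_ne hS hG
  have hQU := U_disj h.eo h.cl h.noeo
  have hoff' : SameOff s F' F Q := fun b hb => (hoff b hb).symm
  -- components different from Q
  have key : ∀ W, (EO s F' W ∧ W ≠ Q) ↔ (EO s F W ∧ W ≠ Q) := by
    intro W
    constructor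
    · rintro ⟨h1, h2⟩
      have hd := comp_disj hE.1 h1.1 (Ne.symm h2)
      exact ⟨(agr_off hoff' hd).eo hne h1, h2⟩
    · rintro ⟨h1, h2⟩
      have hd := comp_disj h.eo.1 h1.1 (Ne.symm h2)
      exact ⟨(agr_off hoff hd).eo hne' h1, h2⟩
  have hblk : ∀ W, Disjoint Q W → ∀ b, s b ⊆ W → (b ∈ F' ↔ b ∈ F) := by
    intro W hd b hb
    rcases (s b).eq_empty_or_nonempty with h0 | h0
    · constructor
      · intro h1
        have := hne' b h1
        rw [h0] at this
        exact absurd this not_nonempty_empty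
      · intro h1
        have := hne b h1
        rw [h0] at this
        exact absurd this not_nonempty_empty
    · refine (agr_off hoff' hd) b ?_
      intro h1
      obtain ⟨x, hx⟩ := h0
      exact (disjoint_left.mp h1) hx (hb hx)
  have hd3 : ∀ x, deg s F' x = 3 ↔ deg s F x = 3 := by
    intro x
    by_cases hx : x ∈ Q
    · constructor
      · intro h1
        exact absurd h1 (deg3_eo hE hx)
      · intro h1
        exact absurd h1 (deg3_eo h.eo hx)
    · have hd : Disjoint Q {x} := by
        rw [disjoint_singleton_right]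
        exact hx
      rw [(agr_off hoff' hd).deg (mem_singleton_self x)]
  refine ⟨hG, hE, h.z, ⟨?_, ?_, ?_⟩, ?_, ?_, ?_⟩
  · intro W
    rw [key W]
    exact h.base.eo W
  · intro W hW hWne b hb
    have h1 := (h.base.eo W).mpr ⟨hW, hWne⟩
    have hd := comp_disj h.eo.1 h1.1.1 (Ne.symm h1.2)
    rw [hblk W hd b hb]
    exact h.base.blk W hW hWne b hb
  · intro hc x
    rw [hd3 x]
    exact h.base.d3 hc x
  · exact (agr_off hoff hQU).closed h.cl
  · intro W hW hEW
    have hd : Disjoint Q W := disjoint_of_subset_right hW hQU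
    exact h.noeo W hW ((agr_off hoff' hd).eo hne hEW)
  · intro X hX hXn hXU
    have hXQ : X ≠ Q := by
      intro h1
      rw [h1] at hXn
      exact hXn hE
    have hd := comp_disj hE.1 hX (Ne.symm hXQ)
    have hag := agr_off hoff' hd
    obtain ⟨F1, Q1, f1, p1, H⟩ := h.hist X (hag.comp hX)
      (fun h1 => hXn (hag.symm.eo hne' h1)) hXU
    refine ⟨F1, Q1, f1, p1, ⟨H.good, H.eo, H.mem, H.sub, H.mp, H.dp, H.eqX, ?_, H.base, ?_,
      H.no⟩⟩
    · intro b hb
      rw [hblk X hd b hb]
      exact H.blk b hb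
    · intro hc x
      rw [hd3 x]
      exact H.d3 hc x

/-- data of a token move -/
structure Move (s : B → Finset V) (K : Finset B) (cap : ℕ) (F : Finset B) (Q : Finset V)
    (f : B) (p : V) (g : B) (u v : V) (R : Finset V) : Prop where
  good : Good s K cap F
  eo : EO s F Q
  hf : f ∈ F
  hfQ : s f ⊆ Q
  hp : p ∈ s f
  dp : deg s F p = 1
  hgK : g ∈ K
  hg : g ∉ F
  mc : MCase s K cap F Q f p g u v R

theorem Move.disj {s : B → Finset V} {K : Finset B} {cap : ℕ} {F : Finset B} {Q : Finset V}
    {f : B} {p : V} {g : B} {u v : V} {R : Finset V} (M : Move s K cap F Q f p g u v R) :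
    Disjoint Q R := by
  obtain ⟨_, _, _, _, hR, hRn, _⟩ := M.mc
  apply comp_disj M.eo.1 hR
  intro h
  rw [← h] at hRn
  exact hRn M.eo

theorem Move.pQ {s : B → Finset V} {K : Finset B} {cap : ℕ} {F : Finset B} {Q : Finset V}
    {f : B} {p : V} {g : B} {u v : V} {R : Finset V} (M : Move s K cap F Q f p g u v R) :
    p ∈ Q := M.hfQ M.hp

theorem Move.pR {s : B → Finset V} {K : Finset B} {cap : ℕ} {F : Finset B} {Q : Finset V}
    {f : B} {p : V} {g : B} {u v : V} {R : Finset V} (M : Move s K cap F Q f p g u v R) :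
    p ∉ R := fun h => (disjoint_left.mp M.disj) M.pQ h

theorem Move.g_sub {s : B → Finset V} {K : Finset B} {cap : ℕ} {F : Finset B} {Q : Finset V}
    {f : B} {p : V} {g : B} {u v : V} {R : Finset V} (M : Move s K cap F Q f p g u v R) :
    s g ⊆ insert p R := by
  obtain ⟨_, _, _, hsg, _, _, hu, hv, _⟩ := M.mc
  rw [hsg]
  intro x hx
  simp only [mem_insert, mem_singleton] at hx
  rcases hx with h | h | h
  · rw [h]; exact mem_insert_self _ _
  · rw [h]; exact mem_insert_of_mem hu
  · rw [h]; exact mem_insert_of_mem hv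

theorem Move.newgood {s : B → Finset V} {K : Finset B} {cap : ℕ} {F : Finset B} {Q : Finset V}
    {f : B} {p : V} {g : B} {u v : V} {R : Finset V} (M : Move s K cap F Q f p g u v R) :
    Good s K cap (insert g (F.erase f)) := M.mc.2.2.2.2.2.2.2.2.1

theorem Move.neweo {s : B → Finset V} {K : Finset B} {cap : ℕ} {F : Finset B} {Q : Finset V}
    {f : B} {p : V} {g : B} {u v : V} {R : Finset V} (M : Move s K cap F Q f p g u v R) :
    ∀ W, EO s (insert g (F.erase f)) W ↔ (EO s F W ∧ W ≠ Q) ∨ W = insert p R :=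
  M.mc.2.2.2.2.2.2.2.2.2

theorem Move.compR {s : B → Finset V} {K : Finset B} {cap : ℕ} {F : Finset B} {Q : Finset V}
    {f : B} {p : V} {g : B} {u v : V} {R : Finset V} (M : Move s K cap F Q f p g u v R) :
    IsComp s F R := M.mc.2.2.2.2.1

theorem Move.newQ {s : B → Finset V} {K : Finset B} {cap : ℕ} {F : Finset B} {Q : Finset V}
    {f : B} {p : V} {g : B} {u v : V} {R : Finset V} (M : Move s K cap F Q f p g u v R) :
    EO s (insert g (F.erase f)) (insert p R) := (M.neweo _).mpr (Or.inr rfl)

/-- agreement of the new family with the old one away from `Q` and `R` -/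
theorem Move.agr {s : B → Finset V} {K : Finset B} {cap : ℕ} {F : Finset B} {Q : Finset V}
    {f : B} {p : V} {g : B} {u v : V} {R : Finset V} (M : Move s K cap F Q f p g u v R)
    {W : Finset V} (hQ : Disjoint Q W) (hR : Disjoint R W) :
    Agr s (insert g (F.erase f)) F W := by
  intro b hb
  have h1 : b ≠ f := by
    intro h
    rw [h] at hb
    exact hb (disjoint_of_subset_left M.hfQ hQ)
  have h2 : b ≠ g := by
    intro h
    rw [h] at hb
    apply hb
    apply disjoint_of_subset_left M.g_sub
    rw [disjoint_insert_left]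
    exact ⟨fun h3 => (disjoint_left.mp hQ) M.pQ h3, hR⟩
  rw [mem_insert, mem_erase]
  constructor
  · rintro (h | h)
    · exact absurd h h2
    · exact h.2
  · intro h
    exact Or.inr ⟨h1, h⟩

theorem Move.d3 {s : B → Finset V} {K : Finset B} {cap : ℕ} {F : Finset B} {Q : Finset V}
    {f : B} {p : V} {g : B} {u v : V} {R : Finset V} (M : Move s K cap F Q f p g u v R)
    (hc : cap = 3) : ∀ x, deg s (insert g (F.erase f)) x = 3 ↔ deg s F x = 3 := by
  intro x
  have hsw := deg_swap (s := s) M.hf M.hg x
  have hnew := M.newgood.adm.2 x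
  have hold := M.good.adm.2 x
  by_cases hxf : x ∈ s f
  · have hxQ := M.hfQ hxf
    rcases M.eo.2.1 x hxQ with h | h | h
    all_goals
      rw [if_pos hxf] at hsw
      by_cases hxg : x ∈ s g
      · rw [if_pos hxg] at hsw
        omega
      · rw [if_neg hxg] at hsw
        omega
  · rw [if_neg hxf] at hsw
    by_cases hxg : x ∈ s g
    · rw [if_pos hxg] at hsw
      have hx' := M.g_sub hxg
      rcases M.newQ.2.1 x hx' with h | h | h <;> omega
    · rw [if_neg hxg] at hsw
      omega

/-- blocks inside a set away from `Q` -/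
theorem Move.blk {s : B → Finset V} {K : Finset B} {cap : ℕ} (_hS : Sys s K cap)
    {F : Finset B} {Q : Finset V}
    {f : B} {p : V} {g : B} {u v : V} {R : Finset V} (M : Move s K cap F Q f p g u v R)
    {W : Finset V} (hQ : Disjoint Q W) {b : B} (hb : s b ⊆ W) :
    b ∈ insert g (F.erase f) ↔ b ∈ F := by
  have hpW : p ∉ W := fun h => (disjoint_left.mp hQ) M.pQ h
  have h1 : b ≠ f := by
    intro h
    rw [h] at hb
    exact hpW (hb M.hp)
  have hpg : p ∈ s g := by
    obtain ⟨_, _, _, hsg, _⟩ := M.mc
    rw [hsg]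
    exact mem_insert_self _ _
  have h2 : b ≠ g := by
    intro h
    rw [h] at hb
    exact hpW (hb hpg)
  rw [mem_insert, mem_erase]
  constructor
  · rintro (h | h)
    · exact absurd h h2
    · exact h.2
  · intro h
    exact Or.inr ⟨h1, h⟩

/-- first case of a move -/
theorem st_move (hB : BridgeStmt) {s : B → Finset V} {K : Finset B} {cap : ℕ}
    (hS : Sys s K cap) {F0 : Finset B} {Q0 : Finset V} {F : Finset B} {Q Z U : Finset V}
    (h : St s K cap F0 Q0 F Q Z U) {f : B} {p : V} {g : B} {u v : V} {R : Finset V}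
    (M : Move s K cap F Q f p g u v R) (hRU : R ⊆ U) :
    St s K cap F0 Q0 (insert g (F.erase f)) (insert p R) {p} (U \ R) := by
  have hne := good_ne hS h.good
  have hne' := good_ne hS M.newgood
  have hQU := U_disj h.eo h.cl h.noeo
  have hQR := M.disj
  have hpU : p ∉ U := fun h1 => (disjoint_left.mp hQU) M.pQ h1
  have hpg : p ∈ s g := by
    obtain ⟨_, _, _, hsg, _⟩ := M.mc
    rw [hsg]
    exact mem_insert_self _ _
  have hd3 := M.d3
  -- the component `Q` minus `p`
  have hQp : IsComp s (insert g (F.erase f)) (Q.erase p) := by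
    have h1 := @hB V B _ _ _ _ s F Q f p
      (fun b hb => ⟨hne b hb, hS.le3 b (h.good.adm.1 hb)⟩) h.eo M.hf M.hfQ M.hp M.dp
    have hag : Agr s (F.erase f) (insert g (F.erase f)) (Q.erase p) := by
      intro b hb
      have h2 : b ≠ g := by
        intro h3
        rw [h3] at hb
        apply hb
        rw [disjoint_left]
        intro x hx hx'
        have hx2 := M.g_sub hx
        rw [mem_insert] at hx2
        rw [mem_erase] at hx'
        rcases hx2 with h4 | h4
        · exact hx'.1 h4
        · exact (disjoint_left.mp hQR) hx'.2 h4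
      rw [mem_insert]
      constructor
      · intro h3
        exact Or.inr h3
      · rintro (h3 | h3)
        · exact absurd h3 h2
        · exact h3
    exact hag.comp h1
  refine ⟨M.newgood, M.newQ, ?_, ⟨?_, ?_, ?_⟩, ?_, ?_, ?_⟩
  · rw [card_singleton]
  · intro W
    rw [M.neweo W, ← h.base.eo W]
    constructor
    · rintro ⟨h1 | h1, h2⟩
      · exact h1
      · exact absurd h1 h2
    · intro h1
      refine ⟨Or.inl h1, ?_⟩
      intro h2
      have h3 := M.compR
      obtain ⟨x, hx⟩ := h3.1
      have h4 : R = W := comp_eq h3 h1.1.1 hx (by rw [h2]; exact mem_insert_of_mem hx)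
      apply M.pR
      rw [h4, h2]
      exact mem_insert_self _ _
  · intro W hW hWne b hb
    have h1 := (h.base.eo W).mpr ⟨hW, hWne⟩
    have hd := comp_disj h.eo.1 h1.1.1 (Ne.symm h1.2)
    rw [M.blk hS hd hb]
    exact h.base.blk W hW hWne b hb
  · intro hc x
    rw [hd3 hc x]
    exact h.base.d3 hc x
  · have hd1 : Disjoint Q (U \ R) := disjoint_of_subset_right sdiff_subset hQU
    have hd2 : Disjoint R (U \ R) := disjoint_sdiff
    exact (M.agr hd1 hd2).symm.closed (closed_sdiff h.cl M.compR.2.1)
  · intro W hW hEW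
    rw [M.neweo W] at hEW
    rcases hEW with h1 | h1
    · exact h.noeo W (hW.trans sdiff_subset) h1.1
    · apply hpU
      have : p ∈ W := by rw [h1]; exact mem_insert_self _ _
      exact (mem_sdiff.mp (hW this)).1
  · intro X hX hXn hXU
    have hYU : ∀ y ∈ ((insert p R) \ {p}) ∪ (U \ R), y ∈ U := by
      intro y hy
      rw [mem_union, mem_sdiff, mem_sdiff, mem_insert, mem_singleton] at hy
      rcases hy with ⟨h1 | h1, h2⟩ | h1
      · exact absurd h1 h2
      · exact hRU h1
      · exact h1.1
    by_cases hXR : Disjoint (insert p R) X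
    · by_cases hXQ : Disjoint (Q.erase p) X
      · -- an old component
        have hpX : p ∉ X := fun h1 => (disjoint_left.mp hXR) (mem_insert_self _ _) h1
        have hdQ : Disjoint Q X := by
          rw [disjoint_left]
          intro x hx hx'
          by_cases h1 : x = p
          · rw [h1] at hx'
            exact hpX hx'
          · exact (disjoint_left.mp hXQ) (mem_erase.mpr ⟨h1, hx⟩) hx'
        have hdR : Disjoint R X := disjoint_of_subset_left (subset_insert _ _) hXR
        have hag := M.agr hdQ hdR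
        have hXU' : ¬ X ⊆ U := by
          intro h1
          apply hXU
          intro x hx
          rw [mem_sdiff]
          exact ⟨h1 hx, fun h2 => (disjoint_left.mp hdR) h2 hx⟩
        obtain ⟨F1, Q1, f1, p1, H⟩ := h.hist X (hag.comp hX)
          (fun h1 => hXn (hag.symm.eo hne' h1)) hXU'
        refine ⟨F1, Q1, f1, p1, ⟨H.good, H.eo, H.mem, H.sub, H.mp, H.dp, H.eqX, ?_, H.base, ?_,
          ?_⟩⟩
        · intro b hb
          rw [M.blk hS hdQ hb]
          exact H.blk b hb
        · intro hc x
          rw [hd3 hc x]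
          exact H.d3 hc x
        · intro y hy
          exact H.no y (mem_union_right _ (hYU y hy))
      · -- the component `Q` minus `p`
        rw [not_disjoint_iff] at hXQ
        obtain ⟨x, hx, hx'⟩ := hXQ
        have hXeq : X = Q.erase p := (comp_eq hQp hX hx hx').symm
        refine ⟨F, Q, f, p, ⟨h.good, h.eo, M.hf, M.hfQ, M.hp, M.dp, hXeq, ?_, h.base, ?_, ?_⟩⟩
        · intro b hb
          rw [hXeq] at hb
          have h1 : b ≠ f := by
            intro h3
            rw [h3] at hb
            exact (mem_erase.mp (hb M.hp)).1 rfl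
          have h2 : b ≠ g := by
            intro h3
            rw [h3] at hb
            exact (mem_erase.mp (hb hpg)).1 rfl
          rw [mem_insert, mem_erase]
          constructor
          · rintro (h3 | h3)
            · exact absurd h3 h2
            · exact h3.2
          · intro h3
            exact Or.inr ⟨h1, h3⟩
        · intro hc x
          exact hd3 hc x
        · intro y hy W hW hyW
          have hyU := hYU y hy
          rcases comp_sub_or_disj hW.1 h.cl with h1 | h1
          · exact h.noeo W h1 hW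
          · exact (disjoint_left.mp h1) hyW hyU
    · exfalso
      rw [not_disjoint_iff] at hXR
      obtain ⟨x, hx, hx'⟩ := hXR
      have h1 := comp_eq M.newQ.1 hX hx hx'
      rw [← h1] at hXn
      exact hXn M.newQ

/-- the points of a block of an EO component -/
theorem eo_block {s : B → Finset V} {F : Finset B} {Q : Finset V} (hE : EO s F Q) {f : B}
    (hf : f ∈ F) (hfQ : s f ⊆ Q) (h3 : (s f).card ≤ 3) {p : V} (hp : p ∈ s f)
    (dp : deg s F p = 1) {x : V} (hx : x ∈ s f) (hxp : x ≠ p) : x ∈ nodes s F (s f) := by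
  by_contra hn
  have hc := hE.2.2.1 f hf hfQ
  have hsub : nodes s F (s f) ⊆ ((s f).erase p).erase x := by
    intro y hy
    have hy1 : y ∈ s f := (mem_filter.mp hy).1
    have hy2 : 2 ≤ deg s F y := (mem_filter.mp hy).2
    rw [mem_erase, mem_erase]
    refine ⟨?_, ?_, hy1⟩
    · intro h
      rw [h] at hy
      exact hn hy
    · intro h
      rw [h] at hy2
      omega
  have h1 := card_le_card hsub
  have h2 : x ∈ (s f).erase p := mem_erase.mpr ⟨hxp, hx⟩
  have h4 := card_erase_add_one h2
  have h5 := card_erase_add_one hp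
  omega

/-- second case of a move: the old token has a certificate -/
theorem hist_cert (hE : ExchStmt) {s : B → Finset V} {K : Finset B} {cap : ℕ}
    (hS : Sys s K cap) {F0 : Finset B} {Q0 : Finset V} {F : Finset B} {Q Y : Finset V}
    {f : B} {p : V} {g : B} {u v : V} {R : Finset V}
    (M : Move s K cap F Q f p g u v R) (hpY : p ∈ Y)
    {F1 : Finset B} {Q1 : Finset V} {f1 : B} {p1 : V}
    (H : Hist s K cap F0 Q0 F Y R F1 Q1 f1 p1) : HCert s K cap F1 Q1 := by
  have hpQ1 : p ∉ Q1 := H.no p hpY Q1 H.eo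
  have hN := H.eo.2.2.1 f1 H.mem H.sub
  have hf1K : f1 ∈ K := H.good.adm.1 H.mem
  have hf13 := hS.le3 f1 hf1K
  have hp1Q1 : p1 ∈ Q1 := H.sub H.mp
  have hp1R : p1 ∉ R := by
    rw [H.eqX]
    exact notMem_erase _ _
  have hp1Q2 : p1 ∉ insert p R := by
    rw [mem_insert]
    rintro (h | h)
    · rw [h] at hp1Q1
      exact hpQ1 hp1Q1
    · exact hp1R h
  have hR1 : ∀ x ∈ Q1, x ≠ p1 → x ∈ R := by
    intro x hx hxp
    rw [H.eqX, mem_erase]
    exact ⟨hxp, hx⟩
  have hcl2 : Closed s (insert g (F.erase f)) (insert p R) := M.newQ.1.2.1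
  have claim : ∀ a ∈ nodes s F1 (s f1), a ∈ s g := by
    intro a haN
    by_contra ha
    have haf1 : a ∈ s f1 := (mem_filter.mp haN).1
    have had : 2 ≤ deg s F1 a := (mem_filter.mp haN).2
    have haQ1 : a ∈ Q1 := H.sub haf1
    have hap1 : a ≠ p1 := by
      intro h
      rw [h, H.dp] at had
      omega
    have haR : a ∈ R := hR1 a haQ1 hap1
    have haQ2 : a ∈ insert p R := mem_insert_of_mem haR
    -- the degree of `a`
    have hsw := deg_swap (s := s) M.hf M.hg a
    rw [if_neg ha, if_neg (fun h => (disjoint_left.mp M.disj) (M.hfQ h) haR)] at hsw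
    have hdeg : deg s F1 a = deg s F a + 1 := by
      have h1 : F1.filter (fun b => a ∈ s b) = insert f1 (F.filter (fun b => a ∈ s b)) := by
        ext b
        rw [mem_insert, mem_filter, mem_filter]
        constructor
        · rintro ⟨h2, h3⟩
          by_cases hb : b = f1
          · exact Or.inl hb
          · right
            refine ⟨?_, h3⟩
            have h4 : s b ⊆ Q1 := block_sub H.eo.1.2.1 h2 h3 haQ1
            have h5 : p1 ∉ s b := fun h6 => hb (uniq_of_deg_one H.dp h2 h6 H.mem H.mp)
            have h7 : s b ⊆ R := by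
              intro x hx
              apply hR1 x (h4 hx)
              intro h8
              rw [h8] at hx
              exact h5 hx
            exact (H.blk b h7).mpr h2
        · rintro (h2 | ⟨h2, h3⟩)
          · rw [h2]
            exact ⟨H.mem, haf1⟩
          · refine ⟨?_, h3⟩
            exact (H.blk b (block_sub M.compR.2.1 h2 h3 haR)).mp h2
      have h2 : f1 ∉ F.filter (fun b => a ∈ s b) := by
        intro h3
        have h4 := block_sub M.compR.2.1 (mem_filter.mp h3).1 haf1 haR
        exact hp1R (h4 H.mp)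
      unfold deg
      rw [h1, card_insert_of_notMem h2]
    have hd1 : deg s (insert g (F.erase f)) a = 1 := by
      have h1 := M.newQ.2.1 a haQ2
      have h2 := H.eo.2.1 a haQ1
      omega
    have hf12 : f1 ∉ insert g (F.erase f) := by
      intro h
      exact hp1Q2 (block_sub hcl2 h haf1 haQ2 H.mp)
    obtain ⟨e, he⟩ : ∃ e, e ∈ (insert g (F.erase f)).filter (fun b => a ∈ s b) := by
      apply card_pos.mp
      unfold deg at hd1
      omega
    have heF : e ∈ insert g (F.erase f) := (mem_filter.mp he).1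
    have hae : a ∈ s e := (mem_filter.mp he).2
    have heQ : s e ⊆ insert p R := block_sub hcl2 heF hae haQ2
    have heK : e ∈ K := M.newgood.adm.1 heF
    have hadm : Adm s K cap (insert f1 ((insert g (F.erase f)).erase e)) := by
      have hsubK : insert f1 ((insert g (F.erase f)).erase e) ⊆ K := by
        intro b hb
        rw [mem_insert] at hb
        rcases hb with h | h
        · rw [h]; exact hf1K
        · exact M.newgood.adm.1 (mem_of_mem_erase h)
      refine ⟨hsubK, ?_⟩
      intro x
      have hsx := deg_swap (s := s) heF hf12 x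
      have hold := M.newgood.adm.2 x
      constructor
      · by_cases hxe : x ∈ s e
        · rw [if_pos hxe] at hsx
          by_cases hxa : x = a
          · rw [if_pos (by rw [hxa]; exact haf1)] at hsx
            omega
          · have h1 := eo_block M.newQ heF heQ (hS.le3 e heK) hae hd1 hxe hxa
            have h2 : 2 ≤ deg s (insert g (F.erase f)) x := (mem_filter.mp h1).2
            omega
        · rw [if_neg hxe] at hsx
          omega
      · rcases hS.hcap with hc | hc
        · by_cases hxf1 : x ∈ s f1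
          · rw [if_pos hxf1] at hsx
            have h2 : deg s (insert g (F.erase f)) x ≤ 2 := by
              by_cases hxp1 : x = p1
              · have h3 := (M.d3 hc p1).trans (H.d3 hc p1)
                have h4 := H.dp
                rw [hxp1] at hold ⊢
                omega
              · have h3 := M.newQ.2.1 x (mem_insert_of_mem (hR1 x (H.sub hxf1) hxp1))
                omega
            omega
          · rw [if_neg hxf1] at hsx
            omega
        · exact (deg_mono hsubK x).trans (hc x)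
    rcases @hE V B _ _ _ _ s K cap (insert g (F.erase f)) (insert p R) e a f1 hS M.newgood
      M.newQ heF heQ hae hd1 hf1K hf12 haf1 hadm with ⟨u', v', R', MC⟩ | ⟨hsub, _⟩
    · obtain ⟨_, _, _, hsf1, hR', hR'n, hu', hv', _⟩ := MC
      obtain ⟨b, hb, hba⟩ : ∃ b ∈ nodes s F1 (s f1), b ≠ a := by
        apply exists_mem_ne
        omega
      have hbf1 : b ∈ s f1 := (mem_filter.mp hb).1
      have hbR' : b ∈ R' := by
        rw [hsf1, mem_insert, mem_insert, mem_singleton] at hbf1
        rcases hbf1 with h | h | h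
        · exact absurd h hba
        · rw [h]; exact hu'
        · rw [h]; exact hv'
      have hbd : 2 ≤ deg s F1 b := (mem_filter.mp hb).2
      have hbp1 : b ≠ p1 := by
        intro h
        rw [h, H.dp] at hbd
        omega
      have hbR : b ∈ insert p R := mem_insert_of_mem (hR1 b (H.sub (mem_filter.mp hb).1) hbp1)
      have h1 := comp_eq M.newQ.1 hR' hbR hbR'
      rw [← h1] at hR'n
      exact hR'n M.newQ
    · exact hp1Q2 (hsub H.mp)
  obtain ⟨huv, hup, hvp, hsg, _, _, hu, hv, _⟩ := M.mc
  have hNuv : nodes s F1 (s f1) = {u, v} := by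
    apply eq_of_subset_of_card_le
    · intro a ha
      have h1 := claim a ha
      rw [hsg, mem_insert] at h1
      rcases h1 with h2 | h2
      · exfalso
        rw [h2] at ha
        exact hpQ1 (H.sub (mem_filter.mp ha).1)
      · exact h2
    · rw [hN, card_pair huv]
  refine ⟨f1, H.mem, H.sub, g, M.hgK, p, hpQ1, ?_, ?_⟩
  · rw [hNuv, hsg]
  · intro hc h1
    have h2 := (H.d3 hc p).mpr h1
    rw [M.dp] at h2
    omega

/-- the start of the process -/
theorem st_start {s : B → Finset V} {K : Finset B} {cap : ℕ} {F : Finset B} {Q : Finset V}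
    (hG : Good s K cap F) (hE : EO s F Q) : ∃ U, St s K cap F Q F Q ∅ U := by
  classical
  refine ⟨univ.filter (fun x => ∃ W, x ∈ W ∧ IsComp s F W ∧ ¬ EO s F W), hG, hE, by simp,
    base_start s cap F Q, ?_, ?_, ?_⟩
  · intro b hb
    by_cases hd : Disjoint (s b)
        (univ.filter (fun x => ∃ W, x ∈ W ∧ IsComp s F W ∧ ¬ EO s F W))
    · exact Or.inr hd
    · left
      rw [not_disjoint_iff] at hd
      obtain ⟨y, hy, hy'⟩ := hd
      rw [mem_filter] at hy'
      obtain ⟨_, W, hyW, hW, hWn⟩ := hy'
      intro z hz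
      rw [mem_filter]
      exact ⟨mem_univ _, W, block_sub hW.2.1 hb hy hyW hz, hW, hWn⟩
  · intro W hW hEW
    obtain ⟨x, hx⟩ := hEW.1.1
    have h1 := hW hx
    rw [mem_filter] at h1
    obtain ⟨_, W', hxW', hW', hWn'⟩ := h1
    have h2 := comp_eq hEW.1 hW' hx hxW'
    rw [← h2] at hWn'
    exact hWn' hEW
  · intro X hX hXn hXU
    exfalso
    apply hXU
    intro x hx
    rw [mem_filter]
    exact ⟨mem_univ _, X, hx, hX, hXn⟩

/-- PATH -/
theorem path (hB : BridgeStmt) (hE : ExchStmt) : PathStmt := by
  intro V B _ _ _ _ s K cap hS hO F0 Q0 hG0 hE0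
  have key : ∀ n : ℕ, ∀ (F : Finset B) (Q Z U : Finset V), U.card = n →
      St s K cap F0 Q0 F Q Z U →
      ∃ F' Q', Good s K cap F' ∧ EO s F' Q' ∧ Cert s K cap F' Q' ∧ Base s cap F0 Q0 F' Q' := by
    intro n
    induction n using Nat.strong_induction_on with
    | _ n ih =>
      intro F Q Z U hn h
      obtain ⟨F', hoff, hG, hEQ, hcert⟩ := hO F Q Z h.good h.eo h.z
      have h' := st_off hS h hoff hG hEQ
      rcases hcert with hc | hc | hc
      · exact ⟨F', Q, hG, hEQ, Or.inl hc, h'.base⟩
      · exact ⟨F', Q, hG, hEQ, Or.inr (Or.inr hc), h'.base⟩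
      · obtain ⟨f, hf, hfQ, p, hp, dp, hpZ, g, hgK, hg, u, v, R, MC⟩ := hc
        have M : Move s K cap F' Q f p g u v R := ⟨hG, hEQ, hf, hfQ, hp, dp, hgK, hg, MC⟩
        by_cases hRU : R ⊆ U
        · have h2 := st_move hB hS h' M hRU
          refine ih (U \ R).card ?_ _ _ _ _ rfl h2
          rw [← hn]
          apply card_lt_card
          rw [ssubset_iff_of_subset sdiff_subset]
          obtain ⟨y, hy⟩ := M.compR.1
          exact ⟨y, hRU hy, fun h3 => (mem_sdiff.mp h3).2 hy⟩
        · have hRn : ¬ EO s F' R := MC.2.2.2.2.2.1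
          obtain ⟨F1, Q1, f1, p1, H⟩ := h'.hist R M.compR hRn hRU
          have hpY : p ∈ (Q \ Z) ∪ U := mem_union_left _ (mem_sdiff.mpr ⟨M.pQ, hpZ⟩)
          exact ⟨F1, Q1, H.good, H.eo, Or.inr (Or.inl (hist_cert hE hS M hpY H)), H.base⟩
  obtain ⟨U, hU⟩ := st_start hG0 hE0
  obtain ⟨F', Q', h1, h2, h3, h4⟩ := key U.card F0 Q0 ∅ U rfl hU
  exact ⟨F', Q', h1, h2, h3, h4.eo, h4.blk, h4.d3⟩

end Path

end Pool.Agent.Helper29_CF.H63
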