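import Mathlib
import Pool.Agent.Helper29_CF.Stmt

/-!
Module CNT7: discharging for `r = 7`.
-/

namespace Pool.Agent.Helper29_CF.H63

open Finset Pool.Agent.Helper29_CF

section Cnt

variable {V B : Type} [Fintype V] [DecidableEq V] [Fintype B] [DecidableEq B]

/-- double counting -/
theorem dc (s : B → Finset V) (X : Finset V) (S : Finset B) (w : B → ℝ) :
    ∑ x ∈ X, ∑ b ∈ S.filter (fun b => x ∈ s b), w b = ∑ b ∈ S, ((s b ∩ X).card : ℝ) * w b := by
  simp_rw [sum_filter]
  rw [sum_comm]
  apply sum_congr rfl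
  intro b _
  rw [← sum_filter, sum_const, nsmul_eq_mul]
  congr 2
  rw [inter_comm]
  congr 1

/-- the blocks of the live Paschs -/
def LV (L : Finset (Finset B)) : Finset B := L.biUnion id

theorem mem_LV {L : Finset (Finset B)} {b : B} : b ∈ LV L ↔ ∃ P ∈ L, b ∈ P := by
  unfold LV
  simp

/-- the live Paschs at `x` -/
def at' (s : B → Finset V) (L : Finset (Finset B)) (x : V) : Finset (Finset B) :=
  L.filter (fun P => x ∈ pts s P)

theorem mem_at' {s : B → Finset V} {L : Finset (Finset B)} {x : V} {P : Finset B} :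
    P ∈ at' s L x ↔ P ∈ L ∧ x ∈ pts s P := by
  unfold at'
  rw [mem_filter]

theorem mem_pts {s : B → Finset V} {P : Finset B} {x : V} :
    x ∈ pts s P ↔ ∃ b ∈ P, x ∈ s b := by
  unfold pts
  rw [mem_biUnion]

/-- number of fixed blocks at `x` which are not live -/
noncomputable def Bx (s : B → Finset V) (z : B → ℝ) (L : Finset (Finset B)) (x : V) : ℝ :=
  ∑ b ∈ univ.filter (fun b => x ∈ s b), if b ∉ LV L ∧ z b = 1 then 1 else 0

/-- number of fixed live blocks at `x` -/
noncomputable def Ax (s : B → Finset V) (z : B → ℝ) (L : Finset (Finset B)) (x : V) : ℝ :=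
  ∑ b ∈ univ.filter (fun b => x ∈ s b), if b ∈ LV L ∧ z b = 1 then 1 else 0

/-- sum of `1 - z` over the floats at `x` which are not live -/
noncomputable def hx (s : B → Finset V) (z : B → ℝ) (L : Finset (Finset B)) (x : V) : ℝ :=
  ∑ b ∈ univ.filter (fun b => x ∈ s b), if b ∉ LV L ∧ z b ≠ 0 ∧ z b ≠ 1 then 1 - z b else 0

/-- active points -/
def Act (s : B → Finset V) (z : B → ℝ) (x : V) : Prop :=
  3 ≤ deg s (univ.filter (fun b => z b ≠ 0 ∧ z b ≠ 1)) x

open Classical in
/-- three times the gain at `x` -/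
noncomputable def Gx (s : B → Finset V) (z : B → ℝ) (L : Finset (Finset B)) (x : V) : ℝ :=
  hx s z L x + (if Act s z x then 0 else Ax s z L x + Bx s z L x) +
    (((at' s L x).card : ℝ) - 1) * Bx s z L x

/-- contribution of the live Pasch `P` at `x` -/
noncomputable def ee (s : B → Finset V) (z : B → ℝ) (L : Finset (Finset B)) (P : Finset B)
    (x : V) : ℝ :=
  ∑ b ∈ P.filter (fun b => x ∈ s b), (1 - z b - if z b = 1 then 1 else 0) - Bx s z L x

open Classical in
/-- what `P` gives to each of its points -/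
noncomputable def giv (s : B → Finset V) (z : B → ℝ) (L : Finset (Finset B)) (P : Finset B) :
    ℝ := if HasExit s z L P then 0 else 1 / 7

open Classical in
/-- what `P` takes from `x` -/
noncomputable def tak (s : B → Finset V) (z : B → ℝ) (L : Finset (Finset B)) (P : Finset B)
    (x : V) : ℝ :=
  if HasExit s z L P ∧ ∃ l ∈ P, z l = 1 ∧ x ∈ s l then
    (∑ b ∈ P.filter (fun b => x ∈ s b), z b - 1) / 5 else 0

theorem live_sum {s : B → Finset V} {r : ℕ} {z : B → ℝ} {L : Finset (Finset B)}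
    (h : CntHyp s r z L) (x : V) (w : B → ℝ) :
    ∑ P ∈ at' s L x, ∑ b ∈ P.filter (fun b => x ∈ s b), w b =
      ∑ b ∈ univ.filter (fun b => x ∈ s b), if b ∈ LV L then w b else 0 := by
  rw [← sum_filter, filter_filter]
  have hset : univ.filter (fun b => x ∈ s b ∧ b ∈ LV L) =
      (at' s L x).biUnion (fun P => P.filter (fun b => x ∈ s b)) := by
    ext b
    simp only [mem_filter, mem_univ, true_and, mem_biUnion, mem_at', mem_LV]
    constructor
    · rintro ⟨h1, P, hP, hb⟩
      exact ⟨P, ⟨hP, mem_pts.mpr ⟨b, hb, h1⟩⟩, hb, h1⟩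
    · rintro ⟨P, ⟨hP, _⟩, hb, h1⟩
      exact ⟨h1, P, hP, hb⟩
  rw [hset, sum_biUnion]
  intro P hP Q hQ hne
  have hP' := (mem_at'.mp (mem_coe.mp hP)).1
  have hQ' := (mem_at'.mp (mem_coe.mp hQ)).1
  have hd := (h.bad P hP').2.2 Q (h.bad Q hQ').1 (Ne.symm hne)
  exact disjoint_filter_filter hd

theorem hx_nonneg {s : B → Finset V} {r : ℕ} {z : B → ℝ} {L : Finset (Finset B)}
    (h : CntHyp s r z L) (x : V) : 0 ≤ hx s z L x := by
  unfold hx
  apply sum_nonneg
  intro b _
  split_ifs
  · linarith [(h.bd b).2]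
  · exact le_refl _

theorem Ax_nonneg (s : B → Finset V) (z : B → ℝ) (L : Finset (Finset B)) (x : V) :
    0 ≤ Ax s z L x := by
  unfold Ax
  apply sum_nonneg
  intro b _
  split_ifs <;> norm_num

theorem Bx_nonneg (s : B → Finset V) (z : B → ℝ) (L : Finset (Finset B)) (x : V) :
    0 ≤ Bx s z L x := by
  unfold Bx
  apply sum_nonneg
  intro b _
  split_ifs <;> norm_num

open Classical in
/-- local lower bound at a point -/
theorem D_lower {s : B → Finset V} {r : ℕ} {z : B → ℝ} {L : Finset (Finset B)}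
    (h : CntHyp s r z L) (x : V) :
    ∑ P ∈ at' s L x, ee s z L P x + Gx s z L x ≤
      (deg s (univ.filter (fun b => z b ≠ 0 ∧ z b ≠ 1)) x : ℝ) -
        (if Act s z x then 3 else 0) := by
  have hdeg : (deg s (univ.filter (fun b => z b ≠ 0 ∧ z b ≠ 1)) x : ℝ) =
      ∑ b ∈ univ.filter (fun b => x ∈ s b), if z b ≠ 0 ∧ z b ≠ 1 then 1 else 0 := by
    unfold deg
    rw [filter_comm, ← sum_filter, sum_const, nsmul_eq_mul, mul_one]
  have hee : ∑ P ∈ at' s L x, ee s z L P x =
      (∑ b ∈ univ.filter (fun b => x ∈ s b),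
        if b ∈ LV L then (1 - z b - if z b = 1 then 1 else 0) else 0) -
        ((at' s L x).card : ℝ) * Bx s z L x := by
    unfold ee
    rw [sum_sub_distrib, live_sum h x, sum_const, nsmul_eq_mul]
  have hpos : ∀ b ∈ LV L, z b ≠ 0 := by
    intro b hb
    obtain ⟨P, hP, hbP⟩ := mem_LV.mp hb
    exact h.pos P hP b hbP
  rw [hdeg, hee]
  unfold Gx
  by_cases hA : Act s z x
  · rw [if_pos hA, if_pos hA]
    have h3 := h.act x hA
    have hsum : (∑ b ∈ univ.filter (fun b => x ∈ s b),
          if b ∈ LV L then (1 - z b - if z b = 1 then 1 else 0) else 0) + hx s z L x -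
          Bx s z L x =
        (∑ b ∈ univ.filter (fun b => x ∈ s b), if z b ≠ 0 ∧ z b ≠ 1 then (1 : ℝ) else 0) -
          ∑ b ∈ univ.filter (fun b => x ∈ s b), z b := by
      unfold hx Bx
      rw [← sum_add_distrib, ← sum_sub_distrib, ← sum_sub_distrib]
      apply sum_congr rfl
      intro b _
      by_cases hb : b ∈ LV L
      · have hz := hpos b hb
        by_cases h1 : z b = 1
        · simp [hb, h1]
        · simp [hb, h1, hz]
      · by_cases h0 : z b = 0
        · simp [hb, h0]
        · by_cases h1 : z b = 1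
          · simp [hb, h1]
          · simp [hb, h1, h0]
    linarith
  · rw [if_neg hA, if_neg hA]
    have hsum : (∑ b ∈ univ.filter (fun b => x ∈ s b),
          if b ∈ LV L then (1 - z b - if z b = 1 then 1 else 0) else 0) + hx s z L x +
          Ax s z L x ≤
        (∑ b ∈ univ.filter (fun b => x ∈ s b), if z b ≠ 0 ∧ z b ≠ 1 then (1 : ℝ) else 0) := by
      unfold hx Ax
      rw [← sum_add_distrib, ← sum_add_distrib]
      apply sum_le_sum
      intro b _
      have hzb := h.bd b
      by_cases hb : b ∈ LV L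
      · have hz := hpos b hb
        by_cases h1 : z b = 1
        · simp [hb, h1]
        · simp [hb, h1, hz]
          exact hzb.1
      · by_cases h0 : z b = 0
        · simp [hb, h0]
        · by_cases h1 : z b = 1
          · simp [hb, h1]
          · simp [hb, h1, h0]
            exact hzb.1
    linarith

theorem swap_sum (s : B → Finset V) (L : Finset (Finset B)) (f : Finset B → V → ℝ) :
    ∑ x ∈ famPts s L, ∑ P ∈ at' s L x, f P x = ∑ P ∈ L, ∑ x ∈ pts s P, f P x := by
  unfold at'
  simp_rw [sum_filter]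
  rw [sum_comm]
  apply sum_congr rfl
  intro P hP
  rw [← sum_filter]
  congr 1
  ext x
  rw [mem_filter]
  constructor
  · intro hx
    exact hx.2
  · intro hx
    exact ⟨mem_biUnion.mpr ⟨P, hP, hx⟩, hx⟩

/-- a Pasch has six points -/
theorem pts_card {s : B → Finset V} {P : Finset B} (h : Pasch s P) : (pts s P).card = 6 := by
  have h1 := dc s (pts s P) P (fun _ => (1 : ℝ))
  have h2 : ∑ x ∈ pts s P, ∑ b ∈ P.filter (fun b => x ∈ s b), (1 : ℝ) =
      ((pts s P).card : ℝ) * 2 := by
    rw [← nsmul_eq_mul, ← sum_const]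
    apply sum_congr rfl
    intro x hx
    rw [sum_const, nsmul_eq_mul, mul_one]
    have h3 := h.2.2.2 x
    obtain ⟨b, hb, hxb⟩ := mem_pts.mp hx
    have h4 : 0 < deg s P x := card_pos.mpr ⟨b, mem_filter.mpr ⟨hb, hxb⟩⟩
    have h5 : deg s P x = 2 := by omega
    unfold deg at h5
    exact_mod_cast h5
  have h3 : ∑ b ∈ P, ((s b ∩ pts s P).card : ℝ) * 1 = 12 := by
    have h4 : ∀ b ∈ P, ((s b ∩ pts s P).card : ℝ) * 1 = 3 := by
      intro b hb
      have h5 : s b ∩ pts s P = s b := by
        rw [inter_eq_left]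
        intro x hx
        exact mem_pts.mpr ⟨b, hb, hx⟩
      rw [h5, h.2.1 b hb]
      norm_num
    rw [sum_congr rfl h4, sum_const, h.1, nsmul_eq_mul]
    norm_num
  rw [h2, h3] at h1
  have h4 : ((pts s P).card : ℝ) = 6 := by linarith
  exact_mod_cast h4

theorem sub_pts {s : B → Finset V} {P : Finset B} {b : B} (hb : b ∈ P) : s b ⊆ pts s P := by
  intro x hx
  exact mem_pts.mpr ⟨b, hb, hx⟩

/-- the sum of `Bx` over the points of a live Pasch -/
theorem Bx_sum {s : B → Finset V} {r : ℕ} {z : B → ℝ} {L : Finset (Finset B)}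
    (h : CntHyp s r z L) {P : Finset B} (hP : P ∈ L) :
    (¬ HasExit s z L P → ∑ x ∈ pts s P, Bx s z L x ≤ 0) ∧
      ∑ x ∈ pts s P, Bx s z L x ≤ 1 := by
  have h1 : ∑ x ∈ pts s P, Bx s z L x =
      ∑ b ∈ univ, ((s b ∩ pts s P).card : ℝ) * (if b ∉ LV L ∧ z b = 1 then 1 else 0) := by
    unfold Bx
    exact dc s (pts s P) univ _
  have hex : ∀ b, b ∉ LV L ∧ z b = 1 → ¬ Disjoint (s b) (pts s P) →
      z b = 1 ∧ b ∉ P ∧ ¬ Disjoint (s b) (pts s P) ∧ ∀ L' ∈ L, b ∉ L' := by
    intro b hb hd
    refine ⟨hb.2, fun h2 => hb.1 (mem_LV.mpr ⟨P, hP, h2⟩), hd, ?_⟩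
    intro L' hL' h2
    exact hb.1 (mem_LV.mpr ⟨L', hL', h2⟩)
  rw [h1]
  constructor
  · intro hn
    apply sum_nonpos
    intro b _
    split_ifs with hb
    · by_cases hd : Disjoint (s b) (pts s P)
      · rw [disjoint_iff_inter_eq_empty.mp hd]
        simp
      · exact absurd ⟨b, hex b hb hd⟩ hn
    · simp
  · by_cases hall : ∀ b, b ∉ LV L ∧ z b = 1 → Disjoint (s b) (pts s P)
    · refine le_trans (sum_nonpos ?_) zero_le_one
      intro b _
      split_ifs with hb
      · rw [disjoint_iff_inter_eq_empty.mp (hall b hb)]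
        simp
      · simp
    · push Not at hall
      obtain ⟨b, hb, hd⟩ := hall
      have hx := hex b hb hd
      have h2 : ∑ c ∈ univ, ((s c ∩ pts s P).card : ℝ) * (if c ∉ LV L ∧ z c = 1 then 1 else 0) =
          ((s b ∩ pts s P).card : ℝ) * (if b ∉ LV L ∧ z b = 1 then 1 else 0) := by
        apply sum_eq_single b
        · intro c _ hcb
          split_ifs with hc
          · by_cases hd' : Disjoint (s c) (pts s P)
            · rw [disjoint_iff_inter_eq_empty.mp hd']
              simp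
            · exact absurd (hex c hc hd') (h.noA P hP b c (Ne.symm hcb) hx)
          · simp
        · intro h3
          exact absurd (mem_univ b) h3
      rw [h2, if_pos hb, mul_one]
      have h3 := (h.bad P hP).2.1 b hx.2.1
      exact_mod_cast h3

/-- at most one fixed line in a live Pasch, `r = 7` -/
theorem fixed_unique {s : B → Finset V} {z : B → ℝ} {L : Finset (Finset B)}
    (h : CntHyp s 7 z L) {P : Finset B} (hP : P ∈ L) {l l' : B} (hl : l ∈ P) (hl' : l' ∈ P)
    (hz : z l = 1) (hz' : z l' = 1) : l = l' := by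
  by_contra hne
  have h1 := h.row P hP
  have h2 : ∑ b ∈ ({l, l'} : Finset B), z b ≤ ∑ b ∈ P, z b := by
    apply sum_le_sum_of_subset_of_nonneg
    · intro b hb
      rw [mem_insert, mem_singleton] at hb
      rcases hb with h3 | h3
      · rw [h3]; exact hl
      · rw [h3]; exact hl'
    · intro b _ _
      exact (h.bd b).1
  rw [sum_pair hne, hz, hz', h1] at h2
  norm_num at h2

/-- the second line at a point of a fixed line -/
theorem zj_bd {s : B → Finset V} {z : B → ℝ} {L : Finset (Finset B)}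
    (h : CntHyp s 7 z L) {P : Finset B} (hP : P ∈ L) {l : B} (hl : l ∈ P) (hz : z l = 1)
    {x : V} (hx : x ∈ s l) :
    0 < ∑ b ∈ P.filter (fun b => x ∈ s b), z b - 1 ∧
      ∑ b ∈ P.filter (fun b => x ∈ s b), z b - 1 < 5 / 7 := by
  have hPa := (h.bad P hP).1
  have hpos : ∀ b ∈ P, 0 < z b := fun b hb => lt_of_le_of_ne (h.bd b).1 (Ne.symm (h.pos P hP b hb))
  have hd : deg s P x = 2 := by
    have h3 := hPa.2.2.2 x
    have h4 : 0 < deg s P x := card_pos.mpr ⟨l, mem_filter.mpr ⟨hl, hx⟩⟩
    omega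
  have hlm : l ∈ P.filter (fun b => x ∈ s b) := mem_filter.mpr ⟨hl, hx⟩
  constructor
  · have h1 := add_sum_erase (P.filter (fun b => x ∈ s b)) z hlm
    have h2 : 0 < ∑ b ∈ (P.filter (fun b => x ∈ s b)).erase l, z b := by
      apply sum_pos
      · intro b hb
        exact hpos b (mem_filter.mp (mem_of_mem_erase hb)).1
      · rw [← card_pos, card_erase_of_mem hlm]
        unfold deg at hd
        omega
    linarith
  · have h1 := h.row P hP
    have h2 := sum_filter_add_sum_filter_not P (fun b => x ∈ s b) z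
    have h3 : 0 < ∑ b ∈ P.filter (fun b => ¬ x ∈ s b), z b := by
      apply sum_pos
      · intro b hb
        exact hpos b (mem_filter.mp hb).1
      · rw [← card_pos]
        have h4 := card_filter_add_card_filter_not (s := P) (fun b => x ∈ s b)
        have h5 := hPa.1
        unfold deg at hd
        omega
    norm_num at h1
    linarith

/-- the sum of what a live Pasch with an exit and a fixed line takes -/
theorem tak_sum {s : B → Finset V} {z : B → ℝ} {L : Finset (Finset B)}
    (h : CntHyp s 7 z L) {P : Finset B} (hP : P ∈ L) (hE : HasExit s z L P) {l : B}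
    (hl : l ∈ P) (hz : z l = 1) : ∑ x ∈ pts s P, tak s z L P x = 1 / 7 := by
  classical
  have hPa := (h.bad P hP).1
  have h1 : ∑ x ∈ pts s P, tak s z L P x =
      ∑ x ∈ s l, (∑ b ∈ P.filter (fun b => x ∈ s b), z b - 1) / 5 := by
    symm
    have h2 : ∀ x ∈ s l, (∑ b ∈ P.filter (fun b => x ∈ s b), z b - 1) / 5 = tak s z L P x := by
      intro x hx
      unfold tak
      rw [if_pos ⟨hE, l, hl, hz, hx⟩]
    rw [sum_congr rfl h2]
    apply sum_subset (sub_pts hl)
    intro x _ hx
    unfold tak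
    rw [if_neg]
    rintro ⟨_, l', hl', hz', hx'⟩
    rw [fixed_unique h hP hl hl' hz hz'] at hx
    exact hx hx'
  rw [h1, ← sum_div, sum_sub_distrib, dc s (s l) P z, sum_const, nsmul_eq_mul, mul_one,
    h.card3 l, ← add_sum_erase P _ hl, inter_self, h.card3 l, hz]
  have h3 : ∑ b ∈ P.erase l, ((s b ∩ s l).card : ℝ) * z b = ∑ b ∈ P.erase l, z b := by
    apply sum_congr rfl
    intro b hb
    rw [mem_erase] at hb
    rw [hPa.2.2.1 b hb.2 l hl hb.1]
    norm_num
  have h4 := add_sum_erase P z hl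
  have h5 := h.row P hP
  rw [h3]
  norm_num at h5 ⊢
  linarith

/-- balance of a live Pasch -/
theorem P_bal {s : B → Finset V} {z : B → ℝ} {L : Finset (Finset B)}
    (h : CntHyp s 7 z L) {P : Finset B} (hP : P ∈ L) :
    3 ≤ ∑ x ∈ pts s P, (ee s z L P x - giv s z L P + tak s z L P x) ∧
      ((∀ l ∈ P, z l ≠ 1) →
        3 < ∑ x ∈ pts s P, (ee s z L P x - giv s z L P + tak s z L P x)) := by
  classical
  have hPa := (h.bad P hP).1
  have hrow := h.row P hP
  norm_num at hrow
  have h6 := pts_card hPa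
  have hB := Bx_sum h hP
  have hee : ∑ x ∈ pts s P, ee s z L P x =
      3 * (4 - 12 / 7 - ∑ b ∈ P, if z b = 1 then (1 : ℝ) else 0) - ∑ x ∈ pts s P, Bx s z L x := by
    unfold ee
    rw [sum_sub_distrib, dc s (pts s P) P]
    congr 1
    have h1 : ∀ b ∈ P, ((s b ∩ pts s P).card : ℝ) * (1 - z b - if z b = 1 then 1 else 0) =
        3 * (1 - z b - if z b = 1 then 1 else 0) := by
      intro b hb
      rw [inter_eq_left.mpr (sub_pts hb), h.card3 b]
      norm_num
    rw [sum_congr rfl h1, ← mul_sum, sum_sub_distrib, sum_sub_distrib, sum_const, hPa.1, hrow,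
      nsmul_eq_mul]
    norm_num
  have hgiv : ∑ x ∈ pts s P, giv s z L P = 6 * giv s z L P := by
    rw [sum_const, h6, nsmul_eq_mul]
    norm_num
  have htot : ∑ x ∈ pts s P, (ee s z L P x - giv s z L P + tak s z L P x) =
      3 * (4 - 12 / 7 - ∑ b ∈ P, if z b = 1 then (1 : ℝ) else 0) - ∑ x ∈ pts s P, Bx s z L x -
        6 * giv s z L P + ∑ x ∈ pts s P, tak s z L P x := by
    rw [sum_add_distrib, sum_sub_distrib, hee, hgiv]
  rw [htot]
  by_cases hfix : ∀ l ∈ P, z l ≠ 1
  · have ha : ∑ b ∈ P, (if z b = 1 then (1 : ℝ) else 0) = 0 := by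
      apply sum_eq_zero
      intro b hb
      rw [if_neg (hfix b hb)]
    have ht : ∑ x ∈ pts s P, tak s z L P x = 0 := by
      apply sum_eq_zero
      intro x _
      unfold tak
      rw [if_neg]
      rintro ⟨_, l, hl, hz, _⟩
      exact hfix l hl hz
    rw [ha, ht]
    by_cases hE : HasExit s z L P
    · have hg : giv s z L P = 0 := by unfold giv; rw [if_pos hE]
      rw [hg]
      constructor
      · linarith [hB.2]
      · intro _
        linarith [hB.2]
    · have hg : giv s z L P = 1 / 7 := by unfold giv; rw [if_neg hE]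
      rw [hg]
      constructor
      · linarith [hB.1 hE]
      · intro _
        linarith [hB.1 hE]
  · push Not at hfix
    obtain ⟨l, hl, hz⟩ := hfix
    have ha : ∑ b ∈ P, (if z b = 1 then (1 : ℝ) else 0) = 1 := by
      rw [sum_eq_single l, if_pos hz]
      · intro b hb hbl
        rw [if_neg]
        intro hzb
        exact hbl (fixed_unique h hP hb hl hzb hz)
      · intro h1
        exact absurd hl h1
    refine ⟨?_, fun h1 => absurd hz (h1 l hl)⟩
    rw [ha]
    by_cases hE : HasExit s z L P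
    · have hg : giv s z L P = 0 := by unfold giv; rw [if_pos hE]
      rw [hg, tak_sum h hP hE hl hz]
      linarith [hB.2]
    · have hg : giv s z L P = 1 / 7 := by unfold giv; rw [if_neg hE]
      have ht : ∑ x ∈ pts s P, tak s z L P x = 0 := by
        apply sum_eq_zero
        intro x _
        unfold tak
        rw [if_neg]
        rintro ⟨h1, _⟩
        exact hE h1
      rw [hg, ht]
      linarith [hB.1 hE]

/-- the gain at a point which lies in only one live Pasch, on its fixed line -/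
theorem G_single {s : B → Finset V} {z : B → ℝ} {L : Finset (Finset B)}
    (h : CntHyp s 7 z L) {P : Finset B} {l : B} (hl : l ∈ P)
    (hz : z l = 1) {x : V} (hx : x ∈ s l) (hat : at' s L x = {P}) :
    ∑ b ∈ P.filter (fun b => x ∈ s b), z b - 1 ≤ Gx s z L x := by
  classical
  have hP : P ∈ L := by
    have h1 : P ∈ at' s L x := by rw [hat]; exact mem_singleton_self P
    exact (mem_at'.mp h1).1
  have hPa := (h.bad P hP).1
  have hd : deg s P x = 2 := by
    have h3 := hPa.2.2.2 x
    have h4 : 0 < deg s P x := card_pos.mpr ⟨l, mem_filter.mpr ⟨hl, hx⟩⟩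
    omega
  have hlive : ∀ w : B → ℝ, ∑ b ∈ P.filter (fun b => x ∈ s b), w b =
      ∑ b ∈ univ.filter (fun b => x ∈ s b), if b ∈ LV L then w b else 0 := by
    intro w
    rw [← live_sum h x w, hat, sum_singleton]
  have hzj := zj_bd h hP hl hz hx
  unfold Gx
  rw [hat, card_singleton]
  by_cases hA : Act s z x
  · rw [if_pos hA]
    have h3 := h.act x hA
    have hB0 := Bx_nonneg s z L x
    -- number of floats
    have hfl : (3 : ℝ) ≤
        ∑ b ∈ univ.filter (fun b => x ∈ s b), if z b ≠ 0 ∧ z b ≠ 1 then 1 else 0 := by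
      have h4 : (deg s (univ.filter (fun b => z b ≠ 0 ∧ z b ≠ 1)) x : ℝ) =
          ∑ b ∈ univ.filter (fun b => x ∈ s b), if z b ≠ 0 ∧ z b ≠ 1 then 1 else 0 := by
        unfold deg
        rw [filter_comm, ← sum_filter, sum_const, nsmul_eq_mul, mul_one]
      rw [← h4]
      exact_mod_cast hA
    have hlf : ∑ b ∈ P.filter (fun b => x ∈ s b), (if z b = 1 then (0 : ℝ) else 1) ≤ 1 := by
      have hlm : l ∈ P.filter (fun b => x ∈ s b) := mem_filter.mpr ⟨hl, hx⟩
      rw [← add_sum_erase _ _ hlm, if_pos hz, zero_add]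
      have h5 : ∑ b ∈ (P.filter (fun b => x ∈ s b)).erase l, (if z b = 1 then (0 : ℝ) else 1) ≤
          ∑ b ∈ (P.filter (fun b => x ∈ s b)).erase l, (1 : ℝ) := by
        apply sum_le_sum
        intro b _
        split_ifs <;> norm_num
      refine le_trans h5 ?_
      rw [sum_const, nsmul_eq_mul, mul_one, card_erase_of_mem hlm]
      unfold deg at hd
      rw [hd]
      norm_num
    have hsum : (∑ b ∈ P.filter (fun b => x ∈ s b), (if z b = 1 then (0 : ℝ) else 1)) -
        (∑ b ∈ P.filter (fun b => x ∈ s b), z b) + Helper29_CF.H63.hx s z L x - Bx s z L x =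
        (∑ b ∈ univ.filter (fun b => x ∈ s b), if z b ≠ 0 ∧ z b ≠ 1 then (1 : ℝ) else 0) -
          ∑ b ∈ univ.filter (fun b => x ∈ s b), z b := by
      rw [hlive (fun b => if z b = 1 then (0 : ℝ) else 1), hlive z]
      unfold Helper29_CF.H63.hx Bx
      rw [← sum_sub_distrib, ← sum_add_distrib, ← sum_sub_distrib, ← sum_sub_distrib]
      apply sum_congr rfl
      intro b _
      by_cases hb : b ∈ LV L
      · have hz0 : z b ≠ 0 := by
          obtain ⟨P', hP', hbP'⟩ := mem_LV.mp hb
          exact h.pos P' hP' b hbP'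
        by_cases h1 : z b = 1
        · simp [hb, h1]
        · simp [hb, h1, hz0]
      · by_cases h0 : z b = 0
        · simp [hb, h0]
        · by_cases h1 : z b = 1
          · simp [hb, h1]
          · simp [hb, h1, h0]
    rw [Nat.cast_one, sub_self, zero_mul]
    linarith
  · rw [if_neg hA]
    have hA1 : 1 ≤ Ax s z L x := by
      unfold Ax
      have h1 : (if l ∈ LV L ∧ z l = 1 then (1 : ℝ) else 0) = 1 :=
        if_pos ⟨mem_LV.mpr ⟨P, hP, hl⟩, hz⟩
      have h5 : (if l ∈ LV L ∧ z l = 1 then (1 : ℝ) else 0) ≤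
          ∑ b ∈ univ.filter (fun b => x ∈ s b), if b ∈ LV L ∧ z b = 1 then (1 : ℝ) else 0 := by
        apply single_le_sum (f := fun b => if b ∈ LV L ∧ z b = 1 then (1 : ℝ) else 0)
        · intro b _
          by_cases hb : b ∈ LV L ∧ z b = 1
          · rw [if_pos hb]; exact zero_le_one
          · rw [if_neg hb]
        · rw [mem_filter]
          exact ⟨mem_univ _, hx⟩
      rw [h1] at h5
      exact h5
    have h1 := hx_nonneg h x
    have h2 := Bx_nonneg s z L x
    rw [Nat.cast_one, sub_self, zero_mul]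
    linarith

theorem G_nonneg {s : B → Finset V} {r : ℕ} {z : B → ℝ} {L : Finset (Finset B)}
    (h : CntHyp s r z L) {x : V} (hx : x ∈ famPts s L) : 0 ≤ Gx s z L x := by
  classical
  have h1 := hx_nonneg h x
  have h2 := Bx_nonneg s z L x
  have h3 := Ax_nonneg s z L x
  have h4 : (1 : ℝ) ≤ ((at' s L x).card : ℝ) := by
    have h5 : 0 < (at' s L x).card := by
      obtain ⟨P, hP, hxP⟩ := mem_biUnion.mp hx
      exact card_pos.mpr ⟨P, mem_at'.mpr ⟨hP, hxP⟩⟩
    exact_mod_cast h5
  have h5 : 0 ≤ (((at' s L x).card : ℝ) - 1) * Bx s z L x := mul_nonneg (by linarith) h2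
  unfold Gx
  split_ifs <;> linarith

/-- balance of a point -/
theorem x_bal {s : B → Finset V} {z : B → ℝ} {L : Finset (Finset B)}
    (h : CntHyp s 7 z L) {x : V} (hx : x ∈ famPts s L) :
    0 ≤ Gx s z L x + ∑ P ∈ at' s L x, (giv s z L P - tak s z L P x) ∧
      ((∃ P ∈ L, ∃ l ∈ P, z l = 1 ∧ x ∈ s l) →
        0 < Gx s z L x + ∑ P ∈ at' s L x, (giv s z L P - tak s z L P x)) := by
  classical
  have hG := G_nonneg h hx
  by_cases hc : ∃ P ∈ L, HasExit s z L P ∧ ∃ l ∈ P, z l = 1 ∧ x ∈ s l
  · -- a Pasch takes at `x`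
    obtain ⟨P, hP, hE, l, hl, hz, hxl⟩ := hc
    have hPx : P ∈ at' s L x := mem_at'.mpr ⟨hP, sub_pts hl hxl⟩
    have hzj := zj_bd h hP hl hz hxl
    have htk : tak s z L P x = (∑ b ∈ P.filter (fun b => x ∈ s b), z b - 1) / 5 := by
      unfold tak
      rw [if_pos ⟨hE, l, hl, hz, hxl⟩]
    have hgk : giv s z L P = 0 := by
      unfold giv
      rw [if_pos hE]
    have hoth : ∀ P' ∈ (at' s L x).erase P, giv s z L P' - tak s z L P' x = 1 / 7 := by
      intro P' hP'
      rw [mem_erase, mem_at'] at hP'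
      obtain ⟨hne, hPL', hxP'⟩ := hP'
      have hnE : ¬ HasExit s z L P' := by
        intro hE'
        refine h.noB P' hPL' P hP hne l hl hz ?_ ⟨hE', hE⟩
        rw [not_disjoint_iff]
        exact ⟨x, hxl, hxP'⟩
      unfold giv tak
      rw [if_neg hnE, if_neg (fun h1 => hnE h1.1), sub_zero]
    have hsum : ∑ P' ∈ at' s L x, (giv s z L P' - tak s z L P' x) =
        -((∑ b ∈ P.filter (fun b => x ∈ s b), z b - 1) / 5) +
          (((at' s L x).erase P).card : ℝ) * (1 / 7) := by
      rw [← add_sum_erase _ _ hPx, hgk, htk, sum_congr rfl hoth, sum_const, nsmul_eq_mul]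
      ring
    have hpos : 0 < Gx s z L x + ∑ P ∈ at' s L x, (giv s z L P - tak s z L P x) := by
      rw [hsum]
      rcases ((at' s L x).erase P).eq_empty_or_nonempty with h0 | h0
      · have hat : at' s L x = {P} := by
          rw [← insert_erase hPx, h0]
          rfl
        have h1 := G_single h hl hz hxl hat
        rw [h0, card_empty, Nat.cast_zero, zero_mul]
        linarith
      · have h1 : (1 : ℝ) ≤ (((at' s L x).erase P).card : ℝ) := by
          have := card_pos.mpr h0
          exact_mod_cast this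
        linarith
    exact ⟨le_of_lt hpos, fun _ => hpos⟩
  · have hterm : ∀ P ∈ at' s L x, 0 ≤ giv s z L P - tak s z L P x := by
      intro P hP
      have hPL := (mem_at'.mp hP).1
      have h1 : tak s z L P x = 0 := by
        unfold tak
        rw [if_neg]
        rintro ⟨h2, h3⟩
        exact hc ⟨P, hPL, h2, h3⟩
      rw [h1]
      unfold giv
      split_ifs <;> norm_num
    constructor
    · have h2 := sum_nonneg hterm
      linarith
    · rintro ⟨P, hP, l, hl, hz, hxl⟩
      have hnE : ¬ HasExit s z L P := fun h1 => hc ⟨P, hP, h1, l, hl, hz, hxl⟩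
      have hPx : P ∈ at' s L x := mem_at'.mpr ⟨hP, sub_pts hl hxl⟩
      have h1 : giv s z L P - tak s z L P x = 1 / 7 := by
        unfold giv tak
        rw [if_neg hnE, if_neg (fun h1 => hnE h1.1), sub_zero]
      have h2 : giv s z L P - tak s z L P x ≤
          ∑ P ∈ at' s L x, (giv s z L P - tak s z L P x) :=
        single_le_sum (f := fun P => giv s z L P - tak s z L P x) hterm hPx
      rw [h1] at h2
      linarith

/-- CNT7 -/
theorem cnt7 : Cnt7Stmt := by
  intro V B _ _ _ _ s z L h hL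
  classical
  -- three times the number of floats
  have h1 : ∑ x : V, (deg s (univ.filter (fun b => z b ≠ 0 ∧ z b ≠ 1)) x : ℝ) =
      3 * ((univ.filter (fun b => z b ≠ 0 ∧ z b ≠ 1)).card : ℝ) := by
    have h2 := dc s (univ : Finset V) (univ.filter (fun b => z b ≠ 0 ∧ z b ≠ 1))
      (fun _ => (1 : ℝ))
    have h3 : ∀ x : V, ∑ b ∈ (univ.filter (fun b => z b ≠ 0 ∧ z b ≠ 1)).filter
        (fun b => x ∈ s b), (1 : ℝ) =
        (deg s (univ.filter (fun b => z b ≠ 0 ∧ z b ≠ 1)) x : ℝ) := by
      intro x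
      rw [sum_const, nsmul_eq_mul, mul_one]
      rfl
    simp_rw [h3] at h2
    rw [h2]
    have h4 : ∀ b ∈ univ.filter (fun b => z b ≠ 0 ∧ z b ≠ 1),
        ((s b ∩ univ).card : ℝ) * 1 = 3 := by
      intro b _
      rw [inter_univ, h.card3 b]
      norm_num
    rw [sum_congr rfl h4, sum_const, nsmul_eq_mul]
    ring
  have h2 : ∑ x : V, (if Act s z x then (3 : ℝ) else 0) =
      3 * ((univ.filter
        (fun x => 3 ≤ deg s (univ.filter (fun b => z b ≠ 0 ∧ z b ≠ 1)) x)).card : ℝ) := by
    rw [← sum_filter, sum_const, nsmul_eq_mul]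
    unfold Act
    rw [mul_comm]
    congr 3
    ext x
    simp only [mem_filter]
  -- lower bound by the sum over the points of the live Paschs
  have h3 : ∑ x ∈ famPts s L, (∑ P ∈ at' s L x, ee s z L P x + Gx s z L x) ≤
      ∑ x : V, ((deg s (univ.filter (fun b => z b ≠ 0 ∧ z b ≠ 1)) x : ℝ) -
        (if Act s z x then 3 else 0)) := by
    have h4 : ∑ x ∈ famPts s L, (∑ P ∈ at' s L x, ee s z L P x + Gx s z L x) ≤
        ∑ x ∈ famPts s L, ((deg s (univ.filter (fun b => z b ≠ 0 ∧ z b ≠ 1)) x : ℝ) -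
          (if Act s z x then 3 else 0)) := sum_le_sum (fun x _ => D_lower h x)
    refine le_trans h4 ?_
    apply sum_le_sum_of_subset_of_nonneg (subset_univ _)
    intro x _ _
    split_ifs with hA
    · have h5 : (3 : ℝ) ≤ (deg s (univ.filter (fun b => z b ≠ 0 ∧ z b ≠ 1)) x : ℝ) := by
        exact_mod_cast hA
      linarith
    · have h5 : (0 : ℝ) ≤ (deg s (univ.filter (fun b => z b ≠ 0 ∧ z b ≠ 1)) x : ℝ) :=
        Nat.cast_nonneg _
      linarith
  rw [sum_sub_distrib, h1, h2] at h3
  -- discharging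
  have h4 : ∑ x ∈ famPts s L, (∑ P ∈ at' s L x, ee s z L P x + Gx s z L x) =
      ∑ P ∈ L, ∑ x ∈ pts s P, (ee s z L P x - giv s z L P + tak s z L P x) +
      ∑ x ∈ famPts s L, (Gx s z L x + ∑ P ∈ at' s L x, (giv s z L P - tak s z L P x)) := by
    rw [← swap_sum s L (fun P x => ee s z L P x - giv s z L P + tak s z L P x),
      ← sum_add_distrib]
    apply sum_congr rfl
    intro x _
    have h5 : ∑ P ∈ at' s L x, ee s z L P x =
        ∑ P ∈ at' s L x, (ee s z L P x - giv s z L P + tak s z L P x) +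
          ∑ P ∈ at' s L x, (giv s z L P - tak s z L P x) := by
      rw [← sum_add_distrib]
      apply sum_congr rfl
      intro P _
      ring
    rw [h5]
    ring
  have h5 : ∑ P ∈ L, (3 : ℝ) ≤
      ∑ P ∈ L, ∑ x ∈ pts s P, (ee s z L P x - giv s z L P + tak s z L P x) :=
    sum_le_sum (fun P hP => (P_bal h hP).1)
  have h6 : 0 ≤ ∑ x ∈ famPts s L, (Gx s z L x + ∑ P ∈ at' s L x,
      (giv s z L P - tak s z L P x)) := sum_nonneg (fun x hx => (x_bal h hx).1)
  have h7 : 3 * (L.card : ℝ) < ∑ P ∈ L, ∑ x ∈ pts s P,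
      (ee s z L P x - giv s z L P + tak s z L P x) +
      ∑ x ∈ famPts s L, (Gx s z L x + ∑ P ∈ at' s L x, (giv s z L P - tak s z L P x)) := by
    have h8 : ∑ P ∈ L, (3 : ℝ) = 3 * (L.card : ℝ) := by
      rw [sum_const, nsmul_eq_mul, mul_comm]
    obtain ⟨P, hP⟩ := hL
    by_cases hfix : ∀ l ∈ P, z l ≠ 1
    · have h9 : ∑ P ∈ L, (3 : ℝ) <
          ∑ P ∈ L, ∑ x ∈ pts s P, (ee s z L P x - giv s z L P + tak s z L P x) :=
        sum_lt_sum (fun P hP => (P_bal h hP).1) ⟨P, hP, (P_bal h hP).2 hfix⟩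
      linarith
    · push Not at hfix
      obtain ⟨l, hl, hz⟩ := hfix
      obtain ⟨x, hx⟩ : (s l).Nonempty := by
        rw [← card_pos, h.card3 l]
        norm_num
      have hxF : x ∈ famPts s L := mem_biUnion.mpr ⟨P, hP, sub_pts hl hx⟩
      have h9 : 0 < ∑ x ∈ famPts s L, (Gx s z L x + ∑ P ∈ at' s L x,
          (giv s z L P - tak s z L P x)) :=
        sum_pos' (fun x hx => (x_bal h hx).1) ⟨x, hxF, (x_bal h hxF).2 ⟨P, hP, l, hl, hz, hx⟩⟩
      linarith
  have h8 : ((univ.filter
      (fun x => 3 ≤ deg s (univ.filter (fun b => z b ≠ 0 ∧ z b ≠ 1)) x)).card : ℝ) +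
      (L.card : ℝ) < ((univ.filter (fun b => z b ≠ 0 ∧ z b ≠ 1)).card : ℝ) := by
    linarith
  exact_mod_cast h8

end Cnt

end Pool.Agent.Helper29_CF.H63
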